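import Pool.Agent.MST.Main

/-!
# The local lower bound for the ranks
-/

namespace Pool.Agent.Results.MP_b5a067_lc.LocalRankBound

open Ordinal

/-- Let `S` be a sequence of stationary sets of points of cofinality `ω₁`, `A` a structure and `r`
a strictly decreasing function on the tree `Tr m A S`. Then there is a structure `B` such that for
every elementary substructure `N` of `B` and every `L` with `sup (N ∩ κ_{m+i}) ∈ S (m+i)` for all
`i < L`, the set `N ∩ κ_{m+L}` embeds into the ordinal
`r (sup (N ∩ κ_m), …, sup (N ∩ κ_{m+L-1}))`. -/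
theorem result (m : ℕ) (S : ℕ → Set Ordinal.{0}) (hS : MST.StatSeq S) (A : MST.CStr)
    (r : List Ordinal.{0} → Ordinal.{0}) (hr : MST.Decreasing (MST.Tr m A S) r) :
    ∃ B : MST.CStr, ∀ N : B.L.ElementarySubstructure MST.Pt, ∀ L : ℕ,
      (∀ i < L, MST.chi N (m + i) ∈ S (m + i)) →
      ∃ f : Ordinal.{0} → Ordinal.{0},
        (∀ p ∈ (N : Set MST.Pt), (p : Ordinal.{0}) < MST.kap (m + L) →
          f p < r ((List.range L).map fun i => MST.chi N (m + i))) ∧
        (∀ p ∈ (N : Set MST.Pt), ∀ q ∈ (N : Set MST.Pt), p < q → f p < f q) :=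
  MST.local_bound_str hS A hr

end Pool.Agent.Results.MP_b5a067_lc.LocalRankBound
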