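import Pool.Agent.MST.Main

/-!
# A rank criterion for mutual stationarity in uncountable cofinality
-/

namespace Pool.Agent.Results.MP_b5a067_lc.RankCriterion

open Ordinal Cardinal

/-- Let every element of every `S n` have uncountable cofinality. Then `⟨S n | n ≥ m⟩` is mutually
stationary if and only if for every structure the tree of finite characteristic sequences has an
infinite branch, if and only if no such tree carries a strictly decreasing ordinal function. -/
theorem result (m : ℕ) (S : ℕ → Set Ordinal.{0}) (hS : ∀ n, ∀ x ∈ S n, ℵ₀ < x.cof) :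
    (MST.MutStat m S ↔
      ∀ A : MST.CStr, ∃ δ : ℕ → Ordinal.{0}, ∀ k, (List.range k).map δ ∈ MST.Tr m A S) ∧
    (MST.MutStat m S ↔ ∀ A : MST.CStr, ¬ ∃ r, MST.Decreasing (MST.Tr m A S) r) :=
  ⟨MST.mutStat_iff_branch hS, MST.mutStat_iff_rank hS⟩

end Pool.Agent.Results.MP_b5a067_lc.RankCriterion
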