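import Pool.Agent.MST.Main

/-!
# The statement of the problem as the limit of a hierarchy whose first levels hold in ZFC
-/

namespace Pool.Agent.Results.MP_b5a067_lc.RankHierarchy

open Ordinal

/-- For every `m`: ZFC proves the levels `α < ω_(m+2)`, and the statement `(∗)` of the problem is
equivalent to all the levels `α < ω_(ω+1)` together. -/
theorem result (m : ℕ) :
    (∀ α : Ordinal.{0}, α < MST.kap m → MST.Level m α) ∧
    (MST.Star ↔ ∀ α : Ordinal.{0}, α < ω_ ((ω : Ordinal.{0}) + 1) → MST.Level m α) :=
  MST.hierarchy m

end Pool.Agent.Results.MP_b5a067_lc.RankHierarchy
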